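import Pool.Agent.Lib.MZFin.BMain
import Pool.Agent.Lib.MZFin.BAsyB

/-! MP_c511df_nt. Finite double zeta values `ζ_𝒜(1, k - 1) = - (B_(p-k) mod p)_p`: linear
independence, and the primes at which they do not vanish. -/

open Finset

namespace Pool.Agent.Results.MP_c511df_nt.DoubleValues

/-- The `p`-th entry of the finite multiple zeta value of the index `kk`, exactly as in the frozen
statement: the sum over `p > m_0 > m_1 > ... > 0` of the product of the `m_a ^ (-kk_a)`. -/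
def entry (p r : ℕ) (kk : Fin r → ℕ) : ZMod p :=
  ∑ m : Fin r → Fin p,
    (if (∀ a b : Fin r, a < b → m b < m a) ∧ (∀ a, 0 < (m a : ℕ))
      then ∏ a, ((((m a : ℕ) : ZMod p)) ^ kk a)⁻¹ else 0)

/-- `d` is the dimension `a_k` of the space of finite multiple zeta values of weight `k`, exactly as
in the frozen statement: there are `d` independent ones, but no `d + 1`. -/
def IsDim (k d : ℕ) : Prop :=
  (∃ len : Fin d → ℕ, ∃ kk : (j : Fin d) → Fin (len j) → ℕ,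
    (∀ j, (∀ a, 1 ≤ kk j a) ∧ ∑ a, kk j a = k) ∧
    ∀ c : Fin d → ℚ,
      (∃ N : ℕ, ∀ p : ℕ, p.Prime → N < p →
        ∑ j : Fin d, ((c j).num : ZMod p) * ((c j).den : ZMod p)⁻¹ *
          entry p (len j) (kk j) = 0) → ∀ j, c j = 0) ∧
  (∀ len : Fin (d + 1) → ℕ, ∀ kk : (j : Fin (d + 1)) → Fin (len j) → ℕ,
    (∀ j, (∀ a, 1 ≤ kk j a) ∧ ∑ a, kk j a = k) →
    ∃ c : Fin (d + 1) → ℚ,
      (∃ N : ℕ, ∀ p : ℕ, p.Prime → N < p →
        ∑ j : Fin (d + 1), ((c j).num : ZMod p) * ((c j).den : ZMod p)⁻¹ *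
          entry p (len j) (kk j) = 0) ∧ ∃ j, c j ≠ 0)

/-- `p` divides the numerator of the Bernoulli number `B_(p-k)`. -/
def Dvd (p k : ℕ) : Prop := (p : ℤ) ∣ (bernoulli (p - k)).num

/-- The odd numbers `k` with `3 ≤ k ≤ K`. -/
def odds (K : ℕ) : Finset ℕ := (Icc 3 K).filter fun k => k % 2 = 1

open Classical in
/-- The number of primes `p ≤ X` in the set `P`. -/
noncomputable def count (P : Set ℕ) (X : ℕ) : ℕ :=
  ((range (X + 1)).filter fun p => p ∈ P ∧ p.Prime).card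

/-- The set `P` contains at least the proportion `δ` of the primes `≤ X` for arbitrarily large
`X`. -/
def Dense (P : Set ℕ) (δ : ℝ) : Prop :=
  ∀ X₀ : ℕ, ∃ X : ℕ, X₀ ≤ X ∧ δ * (count Set.univ X : ℝ) ≤ (count P X : ℝ)

/-- `1` and the `ζ_𝒜(1, k - 1)`, `k ∈ S`, are linearly independent over the rational numbers along
the primes of `P`: no integer combination with a nonzero coefficient (`c 0` is the coefficient of
`1`) vanishes modulo `p` for all large primes `p` of `P`. -/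
def Independent (P : Set ℕ) (S : Finset ℕ) : Prop :=
  ∀ c : ℕ → ℤ, (c 0 ≠ 0 ∨ ∃ k ∈ S, c k ≠ 0) → ∀ N : ℕ, ∃ p ∈ P, N < p ∧ p.Prime ∧
    (c 0 : ZMod p) + ∑ k ∈ S, (c k : ZMod p) * entry p 2 ![1, k - 1] ≠ 0

open Classical in
theorem result :
    -- the double values are Bernoulli numbers
    (∀ p k : ℕ, p.Prime → 2 ≤ k → k + 1 < p → entry p 2 ![1, k - 1] =
      -(((bernoulli (p - k)).num : ZMod p) * ((bernoulli (p - k)).den : ZMod p)⁻¹) ∧
      (entry p 2 ![1, k - 1] ≠ 0 ↔ ¬ Dvd p k)) ∧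
    -- independence along every set of primes of positive upper density
    (∀ (P : Set ℕ) (δ : ℝ), 0 < δ → Dense P δ → ∀ K : ℕ, 3 ≤ K → ∃ S ⊆ odds K,
      1 / 240 * √(δ * K / Real.log K) ≤ (S.card : ℝ) + 2 ∧ Independent P S) ∧
    -- the primes at which all of them vanish
    (∀ K : ℕ, 3 ≤ K → ∃ X₀ : ℕ, ∀ X : ℕ, X₀ ≤ X →
      (count {p | ∀ k ∈ odds K, Dvd p k} X : ℝ) ≤
        518400 * (Real.log K / K) * (count Set.univ X : ℝ)) ∧
    -- many of them do not vanish for a positive proportion of the primes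
    (∀ K : ℕ, 3 ≤ K → ∃ S ⊆ odds K, 1 / 480 * √((K : ℝ) / Real.log K) ≤ (S.card : ℝ) + 2 ∧
      ∀ k ∈ S, Dense {p | ¬ Dvd p k} (1 / K) ∧ ∀ d, IsDim k d → 1 ≤ d) ∧
    -- almost all primes have many non-vanishing ones
    (∀ (s : ℕ) (ε : ℝ), 0 < ε → ∃ K X₀ : ℕ, ∀ X : ℕ, X₀ ≤ X →
      (count {p | ((odds K).filter fun k => ¬ Dvd p k).card ≤ s} X : ℝ) ≤
        ε * (count Set.univ X : ℝ)) ∧
    -- an explicit bound for the first one
    (∃ k ∈ odds 999, ∀ N : ℕ, ∃ p : ℕ, N < p ∧ p.Prime ∧ ¬ Dvd p k) := by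
  have H := Pool.MZFin.bern_HA2 Pool.MZFin.hbern
  have H' := Pool.MZFin.HA_of_HA2 (by norm_num) H
  have hI : ∀ k d : ℕ, IsDim k d → Pool.MZFin.IsDim k d := by
    rintro k d ⟨h1, h2⟩
    refine ⟨h1, ?_⟩
    rintro ⟨len, kk, h3, h4⟩
    obtain ⟨c, h5, j, h6⟩ := h2 len kk h3
    exact h6 (h4 c h5 j)
  refine ⟨fun p k hp hk h => ⟨Pool.MZFin.fsum_bern hp k hk h,
    (Pool.MZFin.not_Dv_iff hp k hk h).symm⟩, ?_, ?_, ?_, ?_, ?_⟩
  · intro P δ hδ hP K hK
    obtain ⟨S, hS, h1, h2⟩ := H P δ hδ hP K hK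
    exact ⟨S, hS, h1, fun c hc N => Pool.MZFin.ind_fsum hS h2 c hc N⟩
  · intro K hK
    obtain ⟨X0, hX0⟩ := Pool.MZFin.dens_zero2 (by norm_num) H K hK
    have e : ((3 : ℝ) / (1 / 240)) ^ 2 = 518400 := by norm_num
    rw [e] at hX0
    exact ⟨X0, hX0⟩
  · intro K hK
    have h1 := Pool.MZFin.dens_pos (by norm_num) H' K hK
    refine ⟨_, filter_subset _ _, le_trans (le_of_eq (by norm_num)) h1, ?_⟩
    intro k hk
    obtain ⟨hk1, hk2⟩ := mem_filter.1 hk
    have hk3 : 3 ≤ k := (mem_Icc.1 (mem_filter.1 hk1).1).1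
    refine ⟨hk2, fun d hd => Pool.MZFin.one_le_of_isDim hk3 (hI k d hd) fun N => ?_⟩
    have hKpos : (0 : ℝ) < 1 / K := by
      have : (0 : ℝ) < K := by exact_mod_cast (by omega : 0 < K)
      positivity
    obtain ⟨p, hp, h2, h3⟩ := Pool.MZFin.UD_inf _ _ hKpos hk2 N
    exact ⟨p, h2, h3, hp⟩
  · intro s ε hε
    exact Pool.MZFin.dens_many (by norm_num) H' s ε hε
  · exact Pool.MZFin.bern_exists Pool.MZFin.hbern

end Pool.Agent.Results.MP_c511df_nt.DoubleValues
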