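import Pool.Agent.Lib.MZFin.QRes

/-!
MP_c511df_nt, finite multiple zeta values (helpers 25, 56, 63, 65, 74, 93 and many others): the
dimensions `a_k` of the spaces of finite multiple zeta values of weight `k` grow exponentially, with
the rate `2^(1/3)`.
-/

set_option autoImplicit false

namespace Pool.Agent.Results.MP_c511df_nt.ExponentialGrowth

open Finset

/-- The `p`-th entry of the finite multiple zeta value of the index `(kk 0, .., kk (r - 1))`: the
sum over `p > m 0 > m 1 > .. > m (r - 1) ≥ 1` of the product of the inverses of `(m i) ^ (kk i)`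
modulo `p`, written as in the frozen statement S18415. -/
def zetaP (p r : ℕ) (kk : Fin r → ℕ) : ZMod p :=
  ∑ m : Fin r → Fin p,
    (if (∀ a b : Fin r, a < b → m b < m a) ∧ (∀ a, 0 < (m a : ℕ))
      then ∏ a, ((((m a : ℕ) : ZMod p)) ^ kk a)⁻¹ else 0)

/-- `d` is the dimension `a_k` of the `ℚ`-span of the finite multiple zeta values of weight `k`, in
the words of the frozen statement S18415: there are `d` indices of weight `k` whose values are
linearly independent over `ℚ` (a combination with rational coefficients is zero if it is zero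
modulo `p` for all large primes `p`), and the values of any `d + 1` indices of weight `k` are
linearly dependent. -/
def DimA (k d : ℕ) : Prop :=
  (∃ len : Fin d → ℕ, ∃ kk : (j : Fin d) → Fin (len j) → ℕ,
    (∀ j, (∀ a, 1 ≤ kk j a) ∧ ∑ a, kk j a = k) ∧
    ∀ c : Fin d → ℚ,
      (∃ N : ℕ, ∀ p : ℕ, p.Prime → N < p →
        ∑ j : Fin d, ((c j).num : ZMod p) * ((c j).den : ZMod p)⁻¹ * zetaP p (len j) (kk j) = 0) →
      ∀ j, c j = 0) ∧
  (∀ len : Fin (d + 1) → ℕ, ∀ kk : (j : Fin (d + 1)) → Fin (len j) → ℕ,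
    (∀ j, (∀ a, 1 ≤ kk j a) ∧ ∑ a, kk j a = k) →
    ∃ c : Fin (d + 1) → ℚ,
      (∃ N : ℕ, ∀ p : ℕ, p.Prime → N < p →
        ∑ j : Fin (d + 1), ((c j).num : ZMod p) * ((c j).den : ZMod p)⁻¹ *
          zetaP p (len j) (kk j) = 0) ∧
      ∃ j, c j ≠ 0)

theorem dimA_iff (k d : ℕ) : DimA k d ↔ MZFin.IsDim k d := by
  constructor
  · rintro ⟨h1, h2⟩
    refine ⟨h1, ?_⟩
    rintro ⟨len, kk, h3, h4⟩
    obtain ⟨c, hc, j, hj⟩ := h2 len kk h3
    exact hj (h4 c hc j)
  · rintro ⟨h1, h2⟩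
    refine ⟨h1, fun len kk h3 => ?_⟩
    by_contra hcon
    push Not at hcon
    exact h2 ⟨len, kk, h3, fun c hc j => hcon c hc j⟩

/-- Exponential growth of the dimensions `a_k` of the spaces of finite multiple zeta values, with the
rate `2^(1/3)`: of their partial sums for every `K`, and of `a_k` itself for some `k` in every
window of 16 consecutive weights. -/
theorem result :
    (∀ k : ℕ, ∃! d : ℕ, DimA k d) ∧
    ∀ a : ℕ → ℕ, (∀ k, 1 ≤ k → DimA k (a k)) →
      (∀ K : ℕ, 2 ^ K ≤ 4640 * (K + 3) ^ 2 * (1 + ∑ k ∈ Icc 1 K, a k) ^ 3) ∧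
      ∃ c : ℝ, 0 < c ∧ ∀ n : ℕ, 1 ≤ n → ∃ k, n ≤ k ∧ k ≤ n + 15 ∧
        c * (2 : ℝ) ^ n ≤ (n : ℝ) ^ 5 * (a k : ℝ) ^ 3 := by
  obtain ⟨h1, h2⟩ := MZFin.final_growth
  refine ⟨fun k => ?_, fun a ha => h2 a fun k hk => (dimA_iff k _).1 (ha k hk)⟩
  obtain ⟨d, hd, hu⟩ := h1 k
  exact ⟨d, (dimA_iff k d).2 hd, fun d' hd' => hu d' ((dimA_iff k d').1 hd')⟩

end Pool.Agent.Results.MP_c511df_nt.ExponentialGrowth
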