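import Pool.Agent.Lib.MZFin.QRes

/-!
MP_c511df_nt, finite multiple zeta values (helpers 25, 56, 63, 65, 74, 93 and many others): the primes
modulo which all finite multiple zeta values of small weight vanish are rare, and the values remain
linearly independent, in exponential number, modulo the primes of any set of positive upper density.
-/

set_option autoImplicit false

namespace Pool.Agent.Results.MP_c511df_nt.PrimeDensity

open Finset

/-- The `p`-th entry of the finite multiple zeta value of the index `(kk 0, .., kk (r - 1))`: the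
sum over `p > m 0 > m 1 > .. > m (r - 1) ≥ 1` of the product of the inverses of `(m i) ^ (kk i)`
modulo `p`, written as in the frozen statement S18415. -/
def zetaP (p r : ℕ) (kk : Fin r → ℕ) : ZMod p :=
  ∑ m : Fin r → Fin p,
    (if (∀ a b : Fin r, a < b → m b < m a) ∧ (∀ a, 0 < (m a : ℕ))
      then ∏ a, ((((m a : ℕ) : ZMod p)) ^ kk a)⁻¹ else 0)

/-- modulo `p` the finite multiple zeta values of all weights `1, .., K` are zero -/
def Vanish (K p : ℕ) : Prop :=
  ∀ (r : ℕ) (kk : Fin r → ℕ), 1 ≤ r → (∀ i, 1 ≤ kk i) → ∑ i, kk i ≤ K → zetaP p r kk = 0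

open Classical in
/-- The primes modulo which all finite multiple zeta values of the weights `1, .., K` vanish, and
independent values modulo the primes of a set `P` of relative upper density at least `δ`. -/
theorem result :
    (∀ K : ℕ, ∃ X0 : ℕ, ∀ X : ℕ, X0 ≤ X →
      (((range (X + 1)).filter (fun p => p.Prime ∧ Vanish K p)).card : ℝ) ≤
        17 * (K + 2) * (2 : ℝ) ^ (-((K : ℝ) / 2)) * ((range (X + 1)).filter Nat.Prime).card) ∧
    (∃ X0 : ℕ, ∀ X : ℕ, X0 ≤ X →
      3 / 20 * (((range (X + 1)).filter Nat.Prime).card : ℝ) ≤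
        ((range (X + 1)).filter (fun p => p.Prime ∧ ¬ Vanish 16 p)).card) ∧
    (∃ X0 : ℕ, ∀ X : ℕ, X0 ≤ X →
      53 / 100 * (((range (X + 1)).filter Nat.Prime).card : ℝ) ≤
        ((range (X + 1)).filter (fun p => p.Prime ∧ ¬ Vanish 18 p)).card) ∧
    (∃ X0 : ℕ, ∀ X : ℕ, X0 ≤ X →
      9 / 10 * (((range (X + 1)).filter Nat.Prime).card : ℝ) ≤
        ((range (X + 1)).filter (fun p => p.Prime ∧ ¬ Vanish 24 p)).card) ∧
    ∀ (P : Set ℕ) (δ : ℝ), 0 < δ →
      (∀ X0 : ℕ, ∃ X : ℕ, X0 ≤ X ∧ δ * (((range (X + 1)).filter Nat.Prime).card : ℝ) ≤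
        ((range (X + 1)).filter (fun p => p ∈ P ∧ p.Prime)).card) →
      ∀ K : ℕ, ∃ d : ℕ, δ ^ 2 * 2 ^ K ≤ 4640 * ((K : ℝ) + 3) ^ 2 * (d : ℝ) ^ 3 ∧
        ∃ len : Fin d → ℕ, ∃ kk : (j : Fin d) → Fin (len j) → ℕ,
          (∀ j, (∀ a, 1 ≤ kk j a) ∧ ∑ a, kk j a ≤ K) ∧
          ∀ c : Fin d → ℚ,
            (∃ N : ℕ, ∀ p ∈ P, p.Prime → N < p →
              ∑ j, ((c j).num : ZMod p) * ((c j).den : ZMod p)⁻¹ *
                zetaP p (len j) (kk j) = 0) →
            ∀ j, c j = 0 :=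
  MZFin.final_density

end Pool.Agent.Results.MP_c511df_nt.PrimeDensity
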