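import Pool.Agent.Lib.Wols.Final

/-! MP_c511df_nt. Zagier's identity `a_k = D_k - D_(k-2)` for `k = 2, 3, 4`, and a measure of independence
for the residues of the Bernoulli numbers `B_(p-3)` modulo `p`. -/

open Finset

namespace Pool.Agent.Results.MP_c511df_nt.WeightThree

/-- (1) The statement of S18415 for `2 ≤ k ≤ 4`. (2) For every `j ≥ 1` some finite multiple zeta value
of weight `3 j` is not zero. (3) For all large `X` and all coprime integers `c0`, `c1` of absolute value at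
most `exp(X / 3000)`: at least `X / (200 log X)` primes `7 ≤ p ≤ X` satisfy
`c0 + c1 B_(p-3) ≠ 0` modulo `p`. -/
theorem result :
    (∀ k : ℕ, 2 ≤ k → k ≤ 4 →
      ∃ d : ℕ,
        d + Module.finrank ℚ (Submodule.span ℚ {x : ℝ | ∃ r : ℕ, ∃ kk : Fin r → ℕ,
              (∀ i, 1 ≤ kk i) ∧ (∑ i, kk i = k - 2) ∧ (∀ h : 0 < r, 2 ≤ kk ⟨0, h⟩) ∧
              x = ∑' m : {m : Fin r → ℕ // StrictAnti m ∧ ∀ i, 0 < m i},
                    ∏ i, (((m.1 i : ℕ) : ℝ) ^ kk i)⁻¹})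
          = Module.finrank ℚ (Submodule.span ℚ {x : ℝ | ∃ r : ℕ, ∃ kk : Fin r → ℕ,
              (∀ i, 1 ≤ kk i) ∧ (∑ i, kk i = k) ∧ (∀ h : 0 < r, 2 ≤ kk ⟨0, h⟩) ∧
              x = ∑' m : {m : Fin r → ℕ // StrictAnti m ∧ ∀ i, 0 < m i},
                    ∏ i, (((m.1 i : ℕ) : ℝ) ^ kk i)⁻¹}) ∧
        (∃ len : Fin d → ℕ, ∃ kk : (j : Fin d) → Fin (len j) → ℕ,
          (∀ j, (∀ a, 1 ≤ kk j a) ∧ ∑ a, kk j a = k) ∧
          ∀ c : Fin d → ℚ,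
            (∃ N : ℕ, ∀ p : ℕ, p.Prime → N < p →
              ∑ j : Fin d, ((c j).num : ZMod p) * ((c j).den : ZMod p)⁻¹ *
                ∑ m : Fin (len j) → Fin p,
                  (if (∀ a b : Fin (len j), a < b → m b < m a) ∧ (∀ a, 0 < (m a : ℕ))
                    then ∏ a, ((((m a : ℕ) : ZMod p)) ^ kk j a)⁻¹ else 0) = 0) →
            ∀ j, c j = 0) ∧
        (∀ len : Fin (d + 1) → ℕ, ∀ kk : (j : Fin (d + 1)) → Fin (len j) → ℕ,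
          (∀ j, (∀ a, 1 ≤ kk j a) ∧ ∑ a, kk j a = k) →
          ∃ c : Fin (d + 1) → ℚ,
            (∃ N : ℕ, ∀ p : ℕ, p.Prime → N < p →
              ∑ j : Fin (d + 1), ((c j).num : ZMod p) * ((c j).den : ZMod p)⁻¹ *
                ∑ m : Fin (len j) → Fin p,
                  (if (∀ a b : Fin (len j), a < b → m b < m a) ∧ (∀ a, 0 < (m a : ℕ))
                    then ∏ a, ((((m a : ℕ) : ZMod p)) ^ kk j a)⁻¹ else 0) = 0) ∧
            ∃ j, c j ≠ 0)) ∧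
    (∀ j : ℕ, 1 ≤ j → ∃ r : ℕ, ∃ kk : Fin r → ℕ, (∀ a, 1 ≤ kk a) ∧ ∑ a, kk a = 3 * j ∧
      {p : ℕ | p.Prime ∧ ∑ m : Fin r → Fin p,
        (if (∀ a b : Fin r, a < b → m b < m a) ∧ (∀ a, 0 < (m a : ℕ))
          then ∏ a, ((((m a : ℕ) : ZMod p)) ^ kk a)⁻¹ else 0) ≠ 0}.Infinite) ∧
    (∃ X0 : ℕ, ∀ X : ℕ, X0 ≤ X → ∀ c0 c1 : ℤ, IsCoprime c0 c1 →
      |(c0 : ℝ)| ≤ Real.exp ((X : ℝ) / 3000) → |(c1 : ℝ)| ≤ Real.exp ((X : ℝ) / 3000) →
      (X : ℝ) / (200 * Real.log X) ≤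
        ({p : ℕ | p.Prime ∧ 7 ≤ p ∧ p ≤ X ∧ (c0 : ZMod p) + (c1 : ZMod p) *
          (((bernoulli (p - 3)).num : ZMod p) * ((bernoulli (p - 3)).den : ZMod p)⁻¹) ≠ 0}.ncard :
            ℝ)) := by
  classical
  refine ⟨fun k h2 h4 => Pool.Agent.K3.zagier_small Wols.inf_fz h2 h4,
    fun j _ => Wols.powers j, ?_⟩
  obtain ⟨X0, hX0⟩ := Wols.count_bern
  refine ⟨X0, fun X hX c0 c1 hc h0 h1 => (hX0 X hX c0 c1 hc h0 h1).trans (le_of_eq ?_)⟩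
  rw [← Set.ncard_coe_finset]
  congr 2
  ext p
  simp only [coe_filter, mem_range, Set.mem_ofPred_eq, Nat.lt_succ_iff]
  tauto

end Pool.Agent.Results.MP_c511df_nt.WeightThree
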